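import Pool.Agent.H95.Bill

set_option autoImplicit false
open Pool.Agent.H95.Bill

theorem Pool.Agent.Results.MP_d967a3_an.Q1.result :
    ∃ F : EuclideanSpace ℝ (Fin 3) → ℝ, Body F ∧ ¬ Ellipsoid {x | F x ≤ 1} ∧ ∃ g, InvLines F g :=
  Pool.Agent.H95.Bill.q1
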